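import Pool.Agent.U251.LD.Stm

/-!
# Project LD: linearity and bounds
-/

set_option autoImplicit false

namespace Pool.Agent.U908.LD

open Real MeasureTheory Filter Topology ProbabilityTheory Pool.Agent.U581.BM Pool.Agent.U251.LD
open Pool.Agent.U581.LB (sf rt rt_sf sf_sqf blk Yq bq vq Y V u01 Th S_CLT S_FOUR S_TIGHT)
open scoped BoundedContinuousFunction NNReal

theorem re_real_mul (r : ℝ) (z : ℂ) : (((r : ℂ) * z)).re = r * z.re := Complex.re_ofReal_mul r z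

theorem Y_lin (s : Finset ℕ) (t : ℕ → ℝ) (c : ℕ → ℕ → ℂ) (N : ℕ) (θ : ℕ → ℝ) :
    Y (fun n => ∑ i ∈ s, (t i : ℂ) * c i n) N θ = ∑ i ∈ s, t i * Y (c i) N θ := by
  unfold Y Yq
  have e1 : ∀ i ∈ s, t i * ∑ q ∈ Finset.Icc 1 N, ∑ n ∈ blk N q,
      (c i n * Complex.exp (((2 * π * (rt n * θ q) : ℝ) : ℂ) * Complex.I)).re =
      ∑ q ∈ Finset.Icc 1 N, ∑ n ∈ blk N q,
      t i * (c i n * Complex.exp (((2 * π * (rt n * θ q) : ℝ) : ℂ) * Complex.I)).re := by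
    intro i _
    rw [Finset.mul_sum]
    exact Finset.sum_congr rfl fun q _ => Finset.mul_sum _ _ _
  rw [Finset.sum_congr rfl e1, Finset.sum_comm]
  refine Finset.sum_congr rfl fun q _ => ?_
  rw [Finset.sum_comm]
  refine Finset.sum_congr rfl fun n _ => ?_
  rw [Finset.sum_mul, Complex.re_sum]
  refine Finset.sum_congr rfl fun i _ => ?_
  rw [mul_assoc, re_real_mul]

theorem Y_sub (c c' : ℕ → ℂ) (N : ℕ) (θ : ℕ → ℝ) :
    Y (fun n => c n - c' n) N θ = Y c N θ - Y c' N θ := by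
  unfold Y Yq
  rw [← Finset.sum_sub_distrib]
  refine Finset.sum_congr rfl fun q _ => ?_
  rw [← Finset.sum_sub_distrib]
  refine Finset.sum_congr rfl fun n _ => ?_
  rw [sub_mul, Complex.sub_re]

theorem Y_bound (c : ℕ → ℂ) (N : ℕ) (θ : ℕ → ℝ) : |Y c N θ| ≤ ∑ q ∈ Finset.Icc 1 N, bq c N q := by
  unfold Y
  refine (Finset.abs_sum_le_sum_abs _ _).trans (Finset.sum_le_sum fun q _ => ?_)
  unfold Yq bq
  refine (Finset.abs_sum_le_sum_abs _ _).trans (Finset.sum_le_sum fun n _ => ?_)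
  refine (Complex.abs_re_le_norm _).trans ?_
  rw [norm_mul, Complex.norm_exp_ofReal_mul_I, mul_one]

theorem dv_nonneg (n : ℕ) : 0 ≤ dv n := Nat.cast_nonneg _

theorem cd_nonneg (n : ℕ) : 0 ≤ cd n := by
  unfold cd
  have := dv_nonneg n
  positivity

theorem log_inv_pos {ρ : ℝ} (h0 : 0 < ρ) (h1 : ρ < 1) : 0 < log (1 / ρ) := by
  apply Real.log_pos
  rw [lt_div_iff₀ h0, one_mul]
  exact h1

theorem sg_arg_pos {ρ : ℝ} (h0 : 0 < ρ) (h1 : ρ < 1) : 0 < 8 / π ^ 2 * (ρ * log (1 / ρ) ^ 3) := by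
  have := log_inv_pos h0 h1
  positivity

theorem sg_pos {ρ : ℝ} (h0 : 0 < ρ) (h1 : ρ < 1) : 0 < sg ρ := by
  unfold sg
  exact Real.sqrt_pos.2 (sg_arg_pos h0 h1)

theorem sg_sq {ρ : ℝ} (h0 : 0 < ρ) (h1 : ρ < 1) :
    sg ρ ^ 2 = 8 / π ^ 2 * (ρ * log (1 / ρ) ^ 3) := by
  unfold sg
  exact Real.sq_sqrt (sg_arg_pos h0 h1).le

theorem norm_exp_sub_sq (a b : ℝ) : ‖Complex.exp ((a : ℂ) * Complex.I) -
    Complex.exp ((b : ℂ) * Complex.I)‖ ^ 2 = 2 * (1 - cos (a - b)) := by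
  rw [← Complex.normSq_eq_norm_sq, Complex.normSq_apply]
  simp only [Complex.sub_re, Complex.sub_im, Complex.exp_ofReal_mul_I_re,
    Complex.exp_ofReal_mul_I_im, cos_sub]
  nlinarith [sin_sq_add_cos_sq a, sin_sq_add_cos_sq b]

/-- the norms of the increments -/
theorem cc_sub_norm (ρ u v : ℝ) (n : ℕ) : ‖cc ρ v n - cc ρ u n‖ ^ 2 =
    (cd n / sg ρ) ^ 2 * (2 * (1 - cos (2 * π * (√n * (ρ * (v - u)))))) := by
  have e : cc ρ v n - cc ρ u n = ((cd n / sg ρ : ℝ) : ℂ) *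
      Complex.exp (((-(π / 4) : ℝ) : ℂ) * Complex.I) *
      (Complex.exp (((2 * π * (√n * (ρ * v)) : ℝ) : ℂ) * Complex.I) -
        Complex.exp (((2 * π * (√n * (ρ * u)) : ℝ) : ℂ) * Complex.I)) := by
    unfold cc
    ring
  rw [e, norm_mul, norm_mul, Complex.norm_exp_ofReal_mul_I, mul_one, Complex.norm_real, mul_pow,
    norm_exp_sub_sq, Real.norm_eq_abs, sq_abs]
  congr 4
  ring

theorem one_sub_cos_le (x : ℝ) : 1 - cos x ≤ min 2 (x ^ 2 / 2) := by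
  refine le_min ?_ ?_
  · have := Real.neg_one_le_cos x
    linarith
  · have := Real.one_sub_sq_div_two_le_cos (x := x)
    linarith

theorem sq_arg (n : ℕ) (h : ℝ) : (2 * π * (√n * h)) ^ 2 / 2 = 2 * π ^ 2 * (n * h ^ 2) := by
  have h1 : √(n : ℝ) ^ 2 = n := Real.sq_sqrt (Nat.cast_nonneg n)
  rw [mul_pow, mul_pow, mul_pow, h1]
  ring

/-- monotonicity in the size of the increment -/
theorem min_mono2 {n : ℕ} {h h' : ℝ} (h0 : 0 ≤ h) (hh : h ≤ h') :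
    min 2 (2 * π ^ 2 * (n * h ^ 2)) ≤ min 2 (2 * π ^ 2 * (n * h' ^ 2)) := by
  gcongr

/-- coefficients dominated by the increment `h` -/
structure Dom (c : ℕ → ℂ) (A g h : ℝ) : Prop where
  sq : ∀ n, ‖c n‖ ^ 2 ≤ A ^ 2 * ((cd n / g) ^ 2 * (2 * min 2 (2 * π ^ 2 * (n * h ^ 2))))

theorem min_sqrt (n : ℕ) {h : ℝ} (h0 : 0 ≤ h) :
    2 * min 2 (2 * π ^ 2 * (n * h ^ 2)) = (min 2 (2 * π * (√n * h))) ^ 2 := by
  have h1 : √(n : ℝ) ^ 2 = n := Real.sq_sqrt (Nat.cast_nonneg n)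
  have h2 : 0 ≤ 2 * π * (√(n : ℝ) * h) := by positivity
  have h3 := sq_arg n h
  rcases le_total 2 (2 * π * (√(n : ℝ) * h)) with h4 | h4
  · rw [min_eq_left h4, min_eq_left]
    · norm_num
    · rw [← h3]; nlinarith
  · rw [min_eq_right h4, min_eq_right]
    · rw [← h3]; ring
    · rw [← h3]; nlinarith

theorem Dom.norm {c : ℕ → ℂ} {A g h : ℝ} (D : Dom c A g h) (hA : 0 ≤ A) (hg : 0 < g) (h0 : 0 ≤ h)
    (n : ℕ) : ‖c n‖ ≤ A / g * (cd n * min 2 (2 * π * (√n * h))) := by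
  have h1 := D.sq n
  rw [min_sqrt n h0] at h1
  have hm : 0 ≤ min 2 (2 * π * (√(n : ℝ) * h)) := le_min (by norm_num) (by positivity)
  have hc := cd_nonneg n
  have h2 : A ^ 2 * ((cd n / g) ^ 2 * (min 2 (2 * π * (√(n : ℝ) * h))) ^ 2) =
      (A / g * (cd n * min 2 (2 * π * (√n * h)))) ^ 2 := by
    field_simp
  rw [h2] at h1
  exact le_of_sq_le_sq h1 (by positivity) 

theorem Dom.bq {c : ℕ → ℂ} {A g h : ℝ} (D : Dom c A g h) (hA : 0 ≤ A) (hg : 0 < g) (h0 : 0 ≤ h)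
    (N q : ℕ) : bq c N q ≤ A / g * Bh N q h := by
  unfold U581.LB.bq Bh
  rw [Finset.mul_sum]
  exact Finset.sum_le_sum fun n _ => D.norm hA hg h0 n

theorem Dom.vq {c : ℕ → ℂ} {A g h : ℝ} (D : Dom c A g h) (N q : ℕ) :
    vq c N q ≤ (A / g) ^ 2 * Vh N q h := by
  unfold U581.LB.vq Vh
  rw [Finset.mul_sum, Finset.mul_sum]
  refine Finset.sum_le_sum fun n _ => ?_
  have h1 := D.sq n
  have e : (A / g) ^ 2 * (cd n ^ 2 * min 2 (2 * π ^ 2 * (n * h ^ 2))) =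
      1 / 2 * (A ^ 2 * ((cd n / g) ^ 2 * (2 * min 2 (2 * π ^ 2 * (n * h ^ 2))))) := by
    rw [div_pow, div_pow]
    ring
  rw [e]
  linarith

theorem Dom.V {c : ℕ → ℂ} {A g h : ℝ} (D : Dom c A g h) (N : ℕ) : V c N ≤ (A / g) ^ 2 *
    ∑ n ∈ Finset.Icc 1 N, cd n ^ 2 * min 2 (2 * π ^ 2 * (n * h ^ 2)) := by
  unfold U581.LB.V
  rw [Finset.mul_sum, Finset.mul_sum]
  refine Finset.sum_le_sum fun n _ => ?_
  have h1 := D.sq n
  have e : (A / g) ^ 2 * (cd n ^ 2 * min 2 (2 * π ^ 2 * (n * h ^ 2))) =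
      1 / 2 * (A ^ 2 * ((cd n / g) ^ 2 * (2 * min 2 (2 * π ^ 2 * (n * h ^ 2))))) := by
    rw [div_pow, div_pow]
    ring
  rw [e]
  linarith

theorem bq_nonneg (c : ℕ → ℂ) (N q : ℕ) : 0 ≤ bq c N q := Finset.sum_nonneg fun _ _ => norm_nonneg _

theorem vq_nonneg (c : ℕ → ℂ) (N q : ℕ) : 0 ≤ vq c N q := by
  unfold vq
  have : 0 ≤ ∑ n ∈ blk N q, ‖c n‖ ^ 2 := Finset.sum_nonneg fun _ _ => by positivity
  positivity

theorem V_nonneg (c : ℕ → ℂ) (N : ℕ) : 0 ≤ V c N := by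
  unfold V
  have : 0 ≤ ∑ n ∈ Finset.Icc 1 N, ‖c n‖ ^ 2 := Finset.sum_nonneg fun _ _ => by positivity
  positivity

theorem Bh_nonneg (N q : ℕ) {h : ℝ} (h0 : 0 ≤ h) : 0 ≤ Bh N q h :=
  Finset.sum_nonneg fun n _ => mul_nonneg (cd_nonneg n) (le_min (by norm_num) (by positivity))

theorem Vh_nonneg (N q : ℕ) (h : ℝ) : 0 ≤ Vh N q h :=
  Finset.sum_nonneg fun n _ => mul_nonneg (sq_nonneg _) (le_min (by norm_num) (by positivity))

theorem Dom.three {c : ℕ → ℂ} {A g h : ℝ} (D : Dom c A g h) (hA : 0 ≤ A) (hg : 0 < g) (h0 : 0 ≤ h)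
    (N : ℕ) : ∑ q ∈ Finset.Icc 1 N, U581.LB.bq c N q * U581.LB.vq c N q ≤
      (A / g) ^ 3 * ∑ q ∈ Finset.Icc 1 N, Bh N q h * Vh N q h := by
  rw [Finset.mul_sum]
  refine Finset.sum_le_sum fun q _ => ?_
  have h1 := D.bq hA hg h0 N q
  have h2 := D.vq N q
  have h3 := bq_nonneg c N q
  have h4 := vq_nonneg c N q
  have h5 : 0 ≤ A / g := by positivity
  calc U581.LB.bq c N q * U581.LB.vq c N q ≤ (A / g * Bh N q h) * ((A / g) ^ 2 * Vh N q h) :=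
        mul_le_mul h1 h2 h4 (mul_nonneg h5 (Bh_nonneg N q h0))
    _ = _ := by ring

theorem Dom.four {c : ℕ → ℂ} {A g h : ℝ} (D : Dom c A g h) (hA : 0 ≤ A) (hg : 0 < g) (h0 : 0 ≤ h)
    (N : ℕ) : ∑ q ∈ Finset.Icc 1 N, U581.LB.bq c N q ^ 2 * U581.LB.vq c N q ≤
      (A / g) ^ 4 * ∑ q ∈ Finset.Icc 1 N, Bh N q h ^ 2 * Vh N q h := by
  rw [Finset.mul_sum]
  refine Finset.sum_le_sum fun q _ => ?_
  have h1 := D.bq hA hg h0 N q
  have h2 := D.vq N q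
  have h3 := bq_nonneg c N q
  have h4 := vq_nonneg c N q
  have h5 : 0 ≤ A / g := by positivity
  calc U581.LB.bq c N q ^ 2 * U581.LB.vq c N q ≤ (A / g * Bh N q h) ^ 2 * ((A / g) ^ 2 * Vh N q h) :=
        mul_le_mul (pow_le_pow_left₀ h3 h1 2) h2 h4 (sq_nonneg _)
    _ = _ := by ring

/-- the increments are dominated -/
theorem dom_sub {ρ u v : ℝ} : Dom (fun n => cc ρ v n - cc ρ u n) 1 (sg ρ) (ρ * (v - u)) := by
  refine ⟨fun n => ?_⟩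
  rw [cc_sub_norm, one_pow, one_mul]
  have h1 := one_sub_cos_le (2 * π * (√n * (ρ * (v - u))))
  rw [sq_arg] at h1
  gcongr

theorem cc_zero (ρ : ℝ) (n : ℕ) : cc ρ 0 n = 0 := by
  unfold cc
  simp

/-- linear combinations are dominated -/
theorem dom_lin {ρ : ℝ} (h0 : 0 < ρ) (s : Finset ℕ) (t : ℕ → ℝ) (u : ℕ → ℝ)
    (hu : ∀ i ∈ s, 0 ≤ u i ∧ u i ≤ 1) :
    Dom (fun n => ∑ i ∈ s, (t i : ℂ) * cc ρ (u i) n) (∑ i ∈ s, |t i|) (sg ρ) ρ := by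
  refine ⟨fun n => ?_⟩
  obtain ⟨y, hy⟩ : ∃ y, y = (cd n / sg ρ) ^ 2 * (2 * min 2 (2 * π ^ 2 * (n * ρ ^ 2))) := ⟨_, rfl⟩
  have hy0 : 0 ≤ y := by
    rw [hy]
    have : 0 ≤ min 2 (2 * π ^ 2 * ((n : ℝ) * ρ ^ 2)) := le_min (by norm_num) (by positivity)
    positivity
  rw [← hy]
  have h1 : ∀ i ∈ s, ‖cc ρ (u i) n‖ ≤ √y := by
    intro i hi
    apply Real.le_sqrt_of_sq_le
    have h2 := cc_sub_norm ρ 0 (u i) n
    rw [cc_zero, sub_zero, sub_zero] at h2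
    rw [h2, hy]
    have h3 := one_sub_cos_le (2 * π * (√n * (ρ * u i)))
    rw [sq_arg] at h3
    have h4 : min 2 (2 * π ^ 2 * ((n : ℝ) * (ρ * u i) ^ 2)) ≤ min 2 (2 * π ^ 2 * (n * ρ ^ 2)) := by
      apply min_mono2 (mul_nonneg h0.le (hu i hi).1)
      have := (hu i hi).2
      nlinarith
    have h5 := h3.trans h4
    gcongr
  have h6 : ‖∑ i ∈ s, (t i : ℂ) * cc ρ (u i) n‖ ≤ (∑ i ∈ s, |t i|) * √y := by
    rw [Finset.sum_mul]
    refine (norm_sum_le _ _).trans (Finset.sum_le_sum fun i hi => ?_)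
    rw [norm_mul, Complex.norm_real, Real.norm_eq_abs]
    exact mul_le_mul_of_nonneg_left (h1 i hi) (abs_nonneg _)
  calc ‖∑ i ∈ s, (t i : ℂ) * cc ρ (u i) n‖ ^ 2 ≤ ((∑ i ∈ s, |t i|) * √y) ^ 2 :=
        pow_le_pow_left₀ (norm_nonneg _) h6 2
    _ = (∑ i ∈ s, |t i|) ^ 2 * y := by rw [mul_pow, Real.sq_sqrt hy0]

end Pool.Agent.U908.LD
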