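import Pool.Agent.U908.LD.TorB

/-!
# Project LD: characteristic functions
-/

set_option autoImplicit false

namespace Pool.Agent.U908.LD

open Real MeasureTheory Filter Topology ProbabilityTheory Pool.Agent.U581.BM Pool.Agent.U251.LD
open Pool.Agent.U581.LB (sf rt rt_sf sf_sqf blk Yq bq vq Y V u01 Th S_CLT S_FOUR S_TIGHT)
open scoped BoundedContinuousFunction NNReal

/-- the normalised structure function -/
noncomputable def Rf (ρ : ℝ) (N : ℕ) (u : ℝ) : ℝ :=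
  (∑ n ∈ Finset.Icc 1 N, cd n ^ 2 * (1 - cos (2 * π * (√n * (ρ * u))))) / sg ρ ^ 2

theorem Rf_zero (ρ : ℝ) (N : ℕ) : Rf ρ N 0 = 0 := by
  unfold Rf
  simp

theorem Rf_abs (ρ : ℝ) (N : ℕ) (u : ℝ) : Rf ρ N |u| = Rf ρ N u := by
  rcases abs_cases u with ⟨h, -⟩ | ⟨h, -⟩
  · rw [h]
  · rw [h]
    unfold Rf
    congr 1
    refine Finset.sum_congr rfl fun n _ => ?_
    have e : 2 * π * (√n * (ρ * -u)) = -(2 * π * (√n * (ρ * u))) := by ring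
    rw [e, cos_neg]

theorem norm_lin_sq (s : Finset ℕ) (t : ℕ → ℝ) (a : ℕ → ℝ) :
    ‖∑ i ∈ s, (t i : ℂ) * (Complex.exp ((a i : ℂ) * Complex.I) - 1)‖ ^ 2 =
    ∑ i ∈ s, ∑ j ∈ s, t i * t j * ((1 - cos (a i)) + (1 - cos (a j)) - (1 - cos (a i - a j))) := by
  rw [← Complex.normSq_eq_norm_sq, Complex.normSq_apply, Complex.re_sum, Complex.im_sum,
    Finset.sum_mul_sum, Finset.sum_mul_sum, ← Finset.sum_add_distrib]
  refine Finset.sum_congr rfl fun i _ => ?_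
  rw [← Finset.sum_add_distrib]
  refine Finset.sum_congr rfl fun j _ => ?_
  simp only [Complex.re_ofReal_mul, Complex.im_ofReal_mul, Complex.sub_re, Complex.sub_im,
    Complex.exp_ofReal_mul_I_re, Complex.exp_ofReal_mul_I_im, Complex.one_re, Complex.one_im,
    cos_sub]
  ring

/-- the variance of a linear combination -/
theorem V_lin {ρ : ℝ} (s : Finset ℕ) (t u : ℕ → ℝ) (N : ℕ) :
    V (fun n => ∑ i ∈ s, (t i : ℂ) * cc ρ (u i) n) N =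
    1 / 2 * ∑ i ∈ s, ∑ j ∈ s, t i * t j * (Rf ρ N (u i) + Rf ρ N (u j) - Rf ρ N (u i - u j)) := by
  unfold V
  congr 1
  have e1 : ∀ n, ‖∑ i ∈ s, (t i : ℂ) * cc ρ (u i) n‖ ^ 2 = ∑ i ∈ s, ∑ j ∈ s, t i * t j *
      ((cd n ^ 2 / sg ρ ^ 2) * ((1 - cos (2 * π * (√n * (ρ * u i)))) +
        (1 - cos (2 * π * (√n * (ρ * u j)))) - (1 - cos (2 * π * (√n * (ρ * (u i - u j))))))) := by
    intro n
    have e2 : ∑ i ∈ s, (t i : ℂ) * cc ρ (u i) n = ((cd n / sg ρ : ℝ) : ℂ) *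
        Complex.exp (((-(π / 4) : ℝ) : ℂ) * Complex.I) *
        ∑ i ∈ s, (t i : ℂ) * (Complex.exp (((2 * π * (√n * (ρ * u i)) : ℝ) : ℂ) * Complex.I) - 1) := by
      rw [Finset.mul_sum]
      refine Finset.sum_congr rfl fun i _ => ?_
      unfold cc
      ring
    rw [e2, norm_mul, norm_mul, Complex.norm_exp_ofReal_mul_I, mul_one, Complex.norm_real, mul_pow,
      norm_lin_sq s t (fun i => 2 * π * (√n * (ρ * u i))), Real.norm_eq_abs, sq_abs, Finset.mul_sum]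
    refine Finset.sum_congr rfl fun i _ => ?_
    rw [Finset.mul_sum]
    refine Finset.sum_congr rfl fun j _ => ?_
    have e3 : 2 * π * (√n * (ρ * u i)) - 2 * π * (√n * (ρ * u j)) =
      2 * π * (√n * (ρ * (u i - u j))) := by ring
    rw [e3, div_pow]
    ring
  simp only [e1]
  rw [Finset.sum_comm]
  refine Finset.sum_congr rfl fun i _ => ?_
  rw [Finset.sum_comm]
  refine Finset.sum_congr rfl fun j _ => ?_
  rw [← Finset.mul_sum]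
  congr 1
  unfold Rf
  rw [← add_div, ← sub_div, ← Finset.sum_add_distrib, ← Finset.sum_sub_distrib, Finset.sum_div]
  refine Finset.sum_congr rfl fun n _ => ?_
  ring

/-- the characteristic function of a linear combination -/
theorem char_lin (hBLK : S_BLK) (hCLT : S_CLT) (hFOUR : S_FOUR) : ∃ C : ℝ, 0 < C ∧
    ∀ (ρ : ℝ) (N : ℕ) (s : Finset ℕ) (t u : ℕ → ℝ), 0 < ρ → ρ < 1 → 1 ≤ log (1 / ρ) →
    (∀ i ∈ s, 0 ≤ u i ∧ u i ≤ 1) →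
    ‖∫ θ, Complex.exp (((∑ i ∈ s, t i * Y (cc ρ (u i)) N θ : ℝ) : ℂ) * Complex.I) ∂Th -
      ((exp (-(V (fun n => ∑ i ∈ s, (t i : ℂ) * cc ρ (u i) n) N / 2)) : ℝ) : ℂ)‖ ≤
      C * ((∑ i ∈ s, |t i|) ^ 3 + (∑ i ∈ s, |t i|) ^ 4) * ρ ^ (1 / 2 : ℝ) := by
  obtain ⟨C2, hC2, hB⟩ := hBLK
  refine ⟨16 * C2, by positivity, ?_⟩
  intro ρ N s t u h0 h1 hL hu
  obtain ⟨c, hc⟩ : ∃ c : ℕ → ℂ, c = fun n => ∑ i ∈ s, (t i : ℂ) * cc ρ (u i) n := ⟨_, rfl⟩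
  obtain ⟨A, hA⟩ : ∃ A, A = ∑ i ∈ s, |t i| := ⟨_, rfl⟩
  have hA0 : 0 ≤ A := by rw [hA]; exact Finset.sum_nonneg fun _ _ => abs_nonneg _
  have D : Dom c A (sg ρ) ρ := by
    rw [hc, hA]
    exact dom_lin h0 s t u hu
  have e1 : ∀ θ, ∑ i ∈ s, t i * Y (cc ρ (u i)) N θ = Y c N θ := fun θ => by
    rw [hc, Y_lin]
  simp only [e1]
  rw [← hc, ← hA]
  have h2 := hCLT c N
  rw [← (hFOUR c N).2.1, Finset.sum_add_distrib] at h2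
  have hg := sg_pos h0 h1
  have hg2 := sg_sq h0 h1
  have h3 := D.three hA0 hg h0.le N
  have h4 := D.four hA0 hg h0.le N
  obtain ⟨hB1, hB2⟩ := hB N ρ h0 h1.le
  have hρg : ρ ≤ (2 * sg ρ) ^ 2 := by
    rw [mul_pow, hg2]
    have hp : 1 / 2 ≤ 8 / π ^ 2 := by
      rw [div_le_div_iff₀ (by norm_num) (by positivity)]
      have := Real.pi_le_four
      have := Real.pi_pos
      nlinarith
    have hl : 1 ≤ log (1 / ρ) ^ 3 := one_le_pow₀ hL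
    have hl2 : ρ ≤ ρ * log (1 / ρ) ^ 3 := by nlinarith
    have := mul_le_mul hp hl2 h0.le (by positivity)
    linarith
  have hsq : ρ ^ (1 / 2 : ℝ) ≤ 2 * sg ρ := by
    rw [← Real.sqrt_eq_rpow, Real.sqrt_le_left (by positivity)]
    exact hρg
  have hs0 : 0 < ρ ^ (1 / 2 : ℝ) := by positivity
  have h5 : 1 / sg ρ ≤ 2 * (1 / ρ ^ (1 / 2 : ℝ)) := by
    have := one_div_le_one_div_of_le hs0 hsq
    have e : 1 / (2 * sg ρ) = 1 / 2 * (1 / sg ρ) := by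
      field_simp
    rw [e] at this
    linarith
  have p3 : (A / sg ρ) ^ 3 ≤ 8 * (A ^ 3 * (1 / ρ ^ (1 / 2 : ℝ)) ^ 3) := by
    have e : 8 * (A ^ 3 * (1 / ρ ^ (1 / 2 : ℝ)) ^ 3) = (A * (2 * (1 / ρ ^ (1 / 2 : ℝ)))) ^ 3 := by
      ring
    rw [e]
    apply pow_le_pow_left₀ (by positivity)
    rw [div_eq_mul_one_div]
    exact mul_le_mul_of_nonneg_left h5 hA0
  have p4 : (A / sg ρ) ^ 4 ≤ 16 * (A ^ 4 * (1 / ρ ^ (1 / 2 : ℝ)) ^ 4) := by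
    have e : 16 * (A ^ 4 * (1 / ρ ^ (1 / 2 : ℝ)) ^ 4) = (A * (2 * (1 / ρ ^ (1 / 2 : ℝ)))) ^ 4 := by
      ring
    rw [e]
    apply pow_le_pow_left₀ (by positivity)
    rw [div_eq_mul_one_div]
    exact mul_le_mul_of_nonneg_left h5 hA0
  have q1 : (1 / ρ ^ (1 / 2 : ℝ)) ^ 3 * ρ ^ (9 / 4 : ℝ) ≤ ρ ^ (1 / 2 : ℝ) := by
    have : (1 / ρ ^ (1 / 2 : ℝ)) ^ 3 * ρ ^ (9 / 4 : ℝ) = ρ ^ (3 / 4 : ℝ) := by
      rw [one_div, ← Real.rpow_neg h0.le, ← Real.rpow_natCast (ρ ^ (-(1 / 2) : ℝ)),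
        ← Real.rpow_mul h0.le, ← Real.rpow_add h0]
      norm_num
    rw [this]
    exact Real.rpow_le_rpow_of_exponent_ge h0 h1.le (by norm_num)
  have q2 : (1 / ρ ^ (1 / 2 : ℝ)) ^ 4 * ρ ^ (5 / 2 : ℝ) ≤ ρ ^ (1 / 2 : ℝ) := by
    have : (1 / ρ ^ (1 / 2 : ℝ)) ^ 4 * ρ ^ (5 / 2 : ℝ) = ρ ^ (1 / 2 : ℝ) := by
      rw [one_div, ← Real.rpow_neg h0.le, ← Real.rpow_natCast (ρ ^ (-(1 / 2) : ℝ)),
        ← Real.rpow_mul h0.le, ← Real.rpow_add h0]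
      norm_num
    rw [this]
  have r3 : (A / sg ρ) ^ 3 * ∑ q ∈ Finset.Icc 1 N, Bh N q ρ * Vh N q ρ ≤
      16 * C2 * A ^ 3 * ρ ^ (1 / 2 : ℝ) := by
    have hn : 0 ≤ C2 * ρ ^ (9 / 4 : ℝ) := by positivity
    calc (A / sg ρ) ^ 3 * ∑ q ∈ Finset.Icc 1 N, Bh N q ρ * Vh N q ρ
        ≤ (A / sg ρ) ^ 3 * (C2 * ρ ^ (9 / 4 : ℝ)) := mul_le_mul_of_nonneg_left hB1 (by positivity)
      _ ≤ (8 * (A ^ 3 * (1 / ρ ^ (1 / 2 : ℝ)) ^ 3)) * (C2 * ρ ^ (9 / 4 : ℝ)) :=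
          mul_le_mul_of_nonneg_right p3 hn
      _ = 8 * (C2 * A ^ 3 * ((1 / ρ ^ (1 / 2 : ℝ)) ^ 3 * ρ ^ (9 / 4 : ℝ))) := by ring
      _ ≤ 8 * (C2 * A ^ 3 * ρ ^ (1 / 2 : ℝ)) :=
          mul_le_mul_of_nonneg_left (mul_le_mul_of_nonneg_left q1 (by positivity)) (by norm_num)
      _ ≤ 16 * C2 * A ^ 3 * ρ ^ (1 / 2 : ℝ) := by
          have : 0 ≤ C2 * A ^ 3 * ρ ^ (1 / 2 : ℝ) := by positivity
          linarith
  have r4 : (A / sg ρ) ^ 4 * ∑ q ∈ Finset.Icc 1 N, Bh N q ρ ^ 2 * Vh N q ρ ≤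
      16 * C2 * A ^ 4 * ρ ^ (1 / 2 : ℝ) := by
    have hn : 0 ≤ C2 * ρ ^ (5 / 2 : ℝ) := by positivity
    calc (A / sg ρ) ^ 4 * ∑ q ∈ Finset.Icc 1 N, Bh N q ρ ^ 2 * Vh N q ρ
        ≤ (A / sg ρ) ^ 4 * (C2 * ρ ^ (5 / 2 : ℝ)) := mul_le_mul_of_nonneg_left hB2 (by positivity)
      _ ≤ (16 * (A ^ 4 * (1 / ρ ^ (1 / 2 : ℝ)) ^ 4)) * (C2 * ρ ^ (5 / 2 : ℝ)) :=
          mul_le_mul_of_nonneg_right p4 hn
      _ = 16 * (C2 * A ^ 4 * ((1 / ρ ^ (1 / 2 : ℝ)) ^ 4 * ρ ^ (5 / 2 : ℝ))) := by ring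
      _ ≤ 16 * (C2 * A ^ 4 * ρ ^ (1 / 2 : ℝ)) :=
          mul_le_mul_of_nonneg_left (mul_le_mul_of_nonneg_left q2 (by positivity)) (by norm_num)
      _ = 16 * C2 * A ^ 4 * ρ ^ (1 / 2 : ℝ) := by ring
  refine h2.trans ?_
  have e5 : 16 * C2 * (A ^ 3 + A ^ 4) * ρ ^ (1 / 2 : ℝ) = 16 * C2 * A ^ 3 * ρ ^ (1 / 2 : ℝ) +
      16 * C2 * A ^ 4 * ρ ^ (1 / 2 : ℝ) := by ring
  rw [e5]
  linarith

end Pool.Agent.U908.LD
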